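import Pool.Agent.H.MP_360872_lc.A

set_option autoImplicit false
open Cardinal Set Function Filter Topology

namespace Pool.Agent.H.MP_c086f7_lc
open Pool.Agent.H.MP_360872_lc

variable {E : Type}

def side (b : Bool) (T : Set E) : Set E := if b then T else Tᶜ

def cur (m : ℕ → Bool × Set E) : ℕ → Set E
  | 0 => Set.univ
  | n + 1 => cur m n ∩ side (m (n + 1)).1 (m n).2

def hist (m : ℕ → Bool × Set E) : ℕ → List (Bool × Set E)
  | 0 => []
  | n + 1 => m n :: hist m n

def AWins (s : List (Bool × Set E) → Bool × Set E) : Prop :=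
  ∀ m : ℕ → Bool × Set E, (∀ k, m (2 * k) = s (hist m (2 * k))) → ⋂ n, cur m (n + 1) = ∅

def BWins (s : List (Bool × Set E) → Bool × Set E) : Prop :=
  ∀ m : ℕ → Bool × Set E, (∀ k, m (2 * k + 1) = s (hist m (2 * k + 1))) →
    (⋂ n, cur m (n + 1)).Nonempty

lemma side_dig (r : E → ℕ → Bool) (b : Bool) (j : ℕ) (x : E) :
    x ∈ side b {y | r y j = true} ↔ r x j = b := by
  cases b <;> simp [side]

noncomputable def st (s : List (Bool × Set E) → Bool × Set E) (D : ℕ → Set E) :
    List (Bool × ℕ) → (Bool × Set E) × List (Bool × Set E) × Set E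
  | [] => (s [], [], Set.univ)
  | p :: l => (s ((p.1, D p.2) :: (st s D l).1 :: (st s D l).2.1),
      (p.1, D p.2) :: (st s D l).1 :: (st s D l).2.1,
      (st s D l).2.2 ∩ side p.1 (st s D l).1.2 ∩
        side (s ((p.1, D p.2) :: (st s D l).1 :: (st s D l).2.1)).1 (D p.2))

theorem noA [Uncountable E] (s : List (Bool × Set E) → Bool × Set E) : ¬ AWins s := by
  classical
  intro hs
  obtain ⟨Z, hZ⟩ := le_mk_iff_exists_set.1 (aleph1_le_mk E)
  obtain ⟨e⟩ := (Cardinal.le_def Z (ℕ → Bool)).1 (by simpa [hZ] using aleph_one_le_continuum)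
  let r : E → ℕ → Bool := extend Subtype.val e fun _ _ => false
  have hr : ∀ z : Z, r z = e z := fun z => Subtype.val_injective.extend_apply _ _ z
  let D : ℕ → Set E := fun j => {y | r y j = true}
  let Tm : List (Bool × ℕ) × Bool → Set Z := fun p => {x | x.1 ∈ (st s D p.1).2.2 ∧
    x.1 ∈ side p.2 (st s D p.1).1.2 ∧ ∀ j, x.1 ∉ (st s D ((p.2, j) :: p.1)).2.2}
  have h1 : ∀ p, (Tm p).Subsingleton := fun p x hx y hy => e.injective (funext fun j => by
    have a := fun h => hx.2.2 j ⟨⟨hx.1, hx.2.1⟩, (side_dig r _ j x).2 h⟩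
    have b := fun h => hy.2.2 j ⟨⟨hy.1, hy.2.1⟩, (side_dig r _ j y).2 h⟩
    rw [hr] at a b
    rw [Bool.eq_not_iff.2 a, Bool.eq_not_iff.2 b])
  obtain ⟨x, hx⟩ : ∃ x, x ∉ ⋃ p, Tm p := by
    by_contra h
    push Not at h
    have := (countable_iUnion fun p => (h1 p).countable).mono fun x (_ : x ∈ Set.univ) => h x
    rw [countable_univ_iff, ← mk_le_aleph0_iff, hZ] at this
    exact aleph0_lt_aleph_one.not_ge this
  have h2 : ∀ l, ∃ p, x.1 ∈ (st s D l).2.2 → x.1 ∈ (st s D (p :: l)).2.2 := fun l => by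
    by_contra h
    push Not at h
    exact hx (mem_iUnion.2 ⟨(l, decide (x.1 ∈ (st s D l).1.2)), (h default).1,
      by by_cases c : x.1 ∈ (st s D l).1.2 <;> simp [side, c], fun j => (h _).2⟩)
  choose f hf using h2
  let L : ℕ → List (Bool × ℕ) := fun k => Nat.rec [] (fun _ l => f l :: l) k
  have hL : ∀ k, x.1 ∈ (st s D (L k)).2.2 := fun k => by
    induction k with
    | zero => exact mem_univ _
    | succ k ih => exact hf _ ih
  let m : ℕ → Bool × Set E := fun n => if n % 2 = 0 then (st s D (L (n / 2))).1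
    else ((f (L (n / 2))).1, D (f (L (n / 2))).2)
  have m0 : ∀ k, m (2 * k) = (st s D (L k)).1 := fun k => by simp [m]
  have m1 : ∀ k, m (2 * k + 1) = ((f (L k)).1, D (f (L k)).2) := fun k => by
    simp [m, show (2 * k + 1) / 2 = k by omega]
  have h3 : ∀ k, hist m (2 * k) = (st s D (L k)).2.1 ∧ cur m (2 * k) = (st s D (L k)).2.2 := by
    intro k
    induction k with
    | zero => exact ⟨rfl, rfl⟩
    | succ k ih =>
      have := m0 (k + 1)
      rw [show 2 * (k + 1) = 2 * k + 1 + 1 from rfl] at this ⊢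
      simp only [hist, cur, m0, m1, ih.1, ih.2, this]
      exact ⟨rfl, rfl⟩
  have h4 := hs m fun k => by
    rw [m0, (h3 k).1]
    cases k <;> rfl
  have h5 : Antitone (cur m) := antitone_nat_of_succ_le fun n => inter_subset_left
  refine (eq_empty_iff_forall_notMem.1 h4) x (mem_iInter.2 fun n => h5
    (show n + 1 ≤ 2 * (n + 1) by omega) ?_)
  rw [(h3 _).2]
  exact hL (n + 1)

lemma bern : ∃ e : O → ℕ → Bool, Injective e ∧
    ∀ K : Set (ℕ → Bool), IsClosed K → #K = 𝔠 → ¬ K ⊆ range e := by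
  have h := MeasurableSpace.cardinal_measurableSet_le_continuum
    (s := MeasurableSpace.countableGeneratingSet (ℕ → Bool))
    (MeasurableSpace.countable_countableGeneratingSet.le_aleph0.trans aleph0_le_continuum)
  rw [MeasurableSpace.generateFrom_countableGeneratingSet] at h
  obtain ⟨ι⟩ := (Cardinal.le_def {K : Set (ℕ → Bool) | IsClosed K ∧ #K = 𝔠} O).1
    (((mk_le_mk_of_subset fun K hK => hK.1.measurableSet).trans h).trans hO.ge)
  have hw : ∀ K S : Set (ℕ → Bool), #K = 𝔠 → #S < 𝔠 → ∃ y ∈ K, y ∉ S := fun K S a b =>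
    not_subset.1 fun c => b.not_ge (a ▸ mk_le_mk_of_subset c)
  obtain ⟨d, hd⟩ := rec_choice (α := O) (β := (ℕ → Bool) × (ℕ → Bool)) (fun a prev p =>
      p.1 ≠ p.2 ∧ (∀ b, p.1 ≠ (prev b).1 ∧ p.1 ≠ (prev b).2 ∧ p.2 ≠ (prev b).1) ∧
        ∀ K, ι K = a → p.2 ∈ K.1) fun a prev => by
    have h1 : ∀ g : Iio a → ℕ → Bool, #(range g) < 𝔠 := fun g => mk_range_le.trans_lt (hIio a)
    obtain ⟨K, k1, k2⟩ : ∃ K : Set (ℕ → Bool), #K = 𝔠 ∧ ∀ K', ι K' = a → K ⊆ K'.1 := by
      by_cases c : ∃ K, ι K = a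
      · obtain ⟨K, rfl⟩ := c
        exact ⟨K, K.2.2, fun K' c => by rw [ι.injective c]⟩
      · exact ⟨Set.univ, by simp, fun K' h => (c ⟨K', h⟩).elim⟩
    obtain ⟨y, y1, y2⟩ := hw K _ k1 (h1 fun b => (prev b).1)
    obtain ⟨x, -, x2⟩ := hw Set.univ (insert y (range (fun b => (prev b).1) ∪
      range fun b => (prev b).2)) (by simp) (mk_insert_le.trans_lt (add_lt_of_lt
        aleph0_le_continuum ((mk_union_le _ _).trans_lt (add_lt_of_lt aleph0_le_continuum
          (h1 _) (h1 _))) (one_lt_aleph0.trans aleph0_lt_continuum)))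
    exact ⟨(x, y), fun c => x2 (Or.inl c), fun b => ⟨fun c => x2 (Or.inr (Or.inl ⟨b, c.symm⟩)),
      fun c => x2 (Or.inr (Or.inr ⟨b, c.symm⟩)), fun c => y2 ⟨b, c.symm⟩⟩, fun K' c => k2 K' c y1⟩
  refine ⟨fun a => (d a).1, fun a b c => ?_, fun K k1 k2 c => ?_⟩
  · rcases lt_trichotomy a b with h | h | h
    · exact (((hd b).2.1 ⟨a, h⟩).1 c.symm).elim
    · exact h
    · exact (((hd a).2.1 ⟨b, h⟩).1 c).elim
  · obtain ⟨b, hb⟩ := c ((hd (ι ⟨K, k1, k2⟩)).2.2 _ rfl)
    rcases lt_trichotomy b (ι ⟨K, k1, k2⟩) with h | rfl | h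
    · exact ((hd _).2.1 ⟨b, h⟩).2.2 hb.symm
    · exact (hd _).1 hb
    · exact ((hd b).2.1 ⟨_, h⟩).2.1 hb

theorem noB (hE : #E ≤ 𝔠) (s : List (Bool × Set E) → Bool × Set E) : ¬ BWins s := by
  classical
  intro hs
  obtain ⟨e, e1, e2⟩ := bern
  obtain ⟨ι⟩ := (Cardinal.le_def E O).1 (hE.trans hO.ge)
  let r : E → ℕ → Bool := e ∘ ι
  let g : ℕ → Bool → List (Bool × Set E) → Bool × Set E := fun n b h =>
    if n % 2 = 0 then (decide (n ≠ 0) && b, {y | r y (n / 2) = true}) else s h
  let H : (ℕ → Bool) → ℕ → List (Bool × Set E) := fun c n =>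
    Nat.rec [] (fun n h => g n (c (n / 2 - 1)) h :: h) n
  let m : (ℕ → Bool) → ℕ → Bool × Set E := fun c n => g n (c (n / 2 - 1)) (H c n)
  have h1 : ∀ c n, hist (m c) n = H c n := fun c n => by
    induction n with
    | zero => rfl
    | succ n ih => rw [hist, ih]
  have m0 : ∀ c k, m c (2 * k) = (decide (2 * k ≠ 0) && c (k - 1), {y | r y k = true}) :=
    fun c k => by simp [m, g]
  have m1 : ∀ c k, m c (2 * k + 1) = s (H c (2 * k + 1)) := fun c k => by simp [m, g]
  choose x hx using fun c => hs (m c) fun k => by rw [m1, h1]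
  have hx' : ∀ c n, x c ∈ side (m c (n + 1)).1 (m c n).2 := fun c n => (mem_iInter.1 (hx c) n).2
  have h2 : ∀ c k, r (x c) k = (s (H c (2 * k + 1))).1 := fun c k => by
    have := hx' c (2 * k)
    rwa [m0, m1, side_dig] at this
  have h3 : ∀ n, IsLocallyConstant fun c => H c n := fun n => by
    induction n with
    | zero => exact IsLocallyConstant.const _
    | succ n ih =>
      exact (ih.prodMk ((IsLocallyConstant.iff_continuous _).2
        (continuous_apply (n / 2 - 1)))).comp fun p => g n p.2 p.1 :: p.1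
  have h4 : Continuous fun c => r (x c) := continuous_pi fun k => by
    simp only [h2]
    exact ((h3 (2 * k + 1)).comp fun h => (s h).1).continuous
  have h5 : Injective fun c => r (x c) := fun c c' h => by
    have hxx : x c = x c' := (e1.comp ι.injective) h
    refine funext fun j => Nat.strong_induction_on j fun j ih => ?_
    have a : ∀ n, n ≤ 2 * j + 1 → H c n = H c' n := fun n hn => by
      induction n with
      | zero => rfl
      | succ n ih2 =>
        change g n _ (H c n) :: H c n = g n _ (H c' n) :: H c' n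
        rw [ih2 (by omega)]
        by_cases c1 : n % 2 = 0
        · by_cases c2 : n = 0
          · simp [g, c2]
          · rw [ih _ (by omega)]
        · simp [g, c1]
    have b := hx' c (2 * j + 1)
    have b' := hx' c' (2 * j + 1)
    rw [show 2 * j + 1 + 1 = 2 * (j + 1) from rfl, m0, m1] at b b'
    rw [a _ le_rfl, hxx] at b
    revert b b'
    simp only [Nat.add_sub_cancel]
    cases c j <;> cases c' j <;> simp [side] <;> tauto
  refine e2 _ (isCompact_range h4).isClosed (by rw [mk_range_eq _ h5]; simp) ?_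
  rintro _ ⟨c, rfl⟩
  exact ⟨_, rfl⟩

end Pool.Agent.H.MP_c086f7_lc
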